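import Mathlib

/-!
# Counting the subfamilies of a list of natural numbers whose sum has a given property
-/

set_option autoImplicit false

namespace Pool.Agent.R531.Rtmp

open Finset

/-- the number of subfamilies of `l` whose sum satisfies `P` -/
def cnt : List ℕ → (ℕ → Bool) → ℕ
  | [], P => (P 0).toNat
  | a :: l, P => cnt l P + cnt l (fun s => P (a + s))

theorem cnt_congr : ∀ (l : List ℕ) (P Q : ℕ → Bool), (∀ s ≤ l.sum, P s = Q s) → cnt l P = cnt l Q
  | [], P, Q, h => by simp only [cnt]; rw [h 0 (by simp)]
  | a :: l, P, Q, h => by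
    simp only [cnt]
    rw [cnt_congr l P Q (fun s hs => h s (by rw [List.sum_cons]; omega)),
      cnt_congr l (fun s => P (a + s)) (fun s => Q (a + s))
        (fun s hs => h (a + s) (by rw [List.sum_cons]; omega))]

theorem cnt_true : ∀ (l : List ℕ), cnt l (fun _ => true) = 2 ^ l.length
  | [] => rfl
  | a :: l => by
    simp only [cnt]
    rw [cnt_true l, List.length_cons, pow_succ]
    omega

theorem cnt_false : ∀ (l : List ℕ), cnt l (fun _ => false) = 0
  | [] => rfl
  | a :: l => by
    simp only [cnt]
    rw [cnt_false l]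

/-- inclusion and exclusion -/
theorem cnt_or_and : ∀ (l : List ℕ) (P Q : ℕ → Bool),
    cnt l (fun s => P s || Q s) + cnt l (fun s => P s && Q s) = cnt l P + cnt l Q
  | [], P, Q => by
    simp only [cnt]
    cases P 0 <;> cases Q 0 <;> rfl
  | a :: l, P, Q => by
    have h1 := cnt_or_and l P Q
    have h2 := cnt_or_and l (fun s => P (a + s)) (fun s => Q (a + s))
    simp only [cnt]
    omega

/-- complements -/
theorem cnt_compl : ∀ (l : List ℕ) (P : ℕ → Bool), cnt l (fun s => P (l.sum - s)) = cnt l P
  | [], P => rfl
  | a :: l, P => by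
    simp only [cnt]
    have h1 : cnt l (fun s => P ((a :: l).sum - s)) = cnt l (fun s => P (a + s)) := by
      rw [← cnt_compl l (fun s => P (a + s))]
      refine cnt_congr _ _ _ fun s hs => ?_
      simp only [List.sum_cons]
      rw [Nat.add_sub_assoc hs]
    have h2 : cnt l (fun s => P ((a :: l).sum - (a + s))) = cnt l P := by
      rw [← cnt_compl l P]
      refine cnt_congr _ _ _ fun s hs => ?_
      simp only [List.sum_cons]
      rw [Nat.add_sub_add_left]
    rw [h1, h2]
    omega

/-- for positive weights only the empty subfamily has sum `0` -/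
theorem cnt_zero : ∀ (l : List ℕ), (∀ a ∈ l, 0 < a) → cnt l (fun s => decide (s = 0)) = 1
  | [], _ => rfl
  | a :: l, h => by
    simp only [cnt]
    rw [cnt_zero l fun b hb => h b (by simp [hb])]
    have h1 : cnt l (fun s => decide (a + s = 0)) = 0 := by
      refine (cnt_congr l _ (fun _ => false) fun s _ => ?_).trans (cnt_false l)
      have := h a (by simp)
      simp only [decide_eq_false_iff_not]
      omega
    omega

theorem cnt_perm {l l' : List ℕ} (h : l.Perm l') : ∀ P, cnt l P = cnt l' P := by
  induction h with
  | nil => intro P; rfl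
  | cons a _ ih => intro P; simp only [cnt]; rw [ih, ih]
  | swap a b l =>
    intro P
    simp only [cnt]
    have : ∀ s, b + (a + s) = a + (b + s) := fun s => by omega
    simp only [this]
    omega
  | trans _ _ ih ih' => intro P; rw [ih, ih']

/-- the count, for finite sets of indices -/
theorem card_eq_cnt {ι : Type*} [DecidableEq ι] (w : ι → ℕ) : ∀ (E : List ι), E.Nodup →
    ∀ P : ℕ → Bool, (E.toFinset.powerset.filter fun S => P (∑ i ∈ S, w i) = true).card =
      cnt (E.map w) P
  | [], _, P => by
    simp only [List.toFinset_nil, powerset_empty, List.map_nil, cnt]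
    cases h : P 0
    · rw [filter_singleton]
      simp [h]
    · rw [filter_singleton]
      simp [h]
  | a :: E, hE, P => by
    rw [List.nodup_cons] at hE
    have ha : a ∉ E.toFinset := by simpa using hE.1
    rw [List.toFinset_cons, powerset_insert, filter_union, card_union_of_disjoint, List.map_cons]
    · simp only [cnt]
      rw [card_eq_cnt w E hE.2 P, ← card_eq_cnt w E hE.2 (fun s => P (w a + s)), filter_image,
        card_image_of_injOn]
      · congr 2
        refine filter_congr fun S hS => ?_
        rw [mem_powerset] at hS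
        rw [sum_insert fun h => ha (hS h)]
      · intro S hS T hT h
        simp only [coe_filter, mem_powerset, Set.mem_setOf_eq] at hS hT
        have h1 : a ∉ S := fun h => ha (hS.1 h)
        have h2 : a ∉ T := fun h => ha (hT.1 h)
        rw [← erase_insert h1, ← erase_insert h2, h]
    · rw [Finset.disjoint_left]
      intro S hS hS'
      rw [mem_filter, mem_powerset] at hS
      rw [mem_filter, mem_image] at hS'
      obtain ⟨⟨T, _, rfl⟩, _⟩ := hS'
      exact ha (hS.1 (mem_insert_self _ _))

theorem card_fin_eq_cnt {n : ℕ} (w : Fin n → ℕ) (P : ℕ → Bool) :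
    (univ.filter fun S : Finset (Fin n) => P (∑ i ∈ S, w i) = true).card =
      cnt ((List.finRange n).map w) P := by
  rw [← card_eq_cnt w _ (List.nodup_finRange n)]
  congr 2
  ext S
  simp

/-! ### The instance of RTMP -/

/-- the weights -/
def rl (W : List ℕ) (t : ℕ) : List ℕ :=
  (W.sum + t + 1) :: (W.sum + 1) :: (2 * t + 1) :: W

/-- **The main count.** -/
theorem cnt_rl (W : List ℕ) (t : ℕ) (hW : ∀ a ∈ W, 0 < a) :
    cnt (rl W t) (fun s => decide (s ≤ W.sum + t + 1)) =
      2 ^ (W.length + 1) + 1 + cnt W (fun s => decide (s = t)) := by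
  simp only [rl, cnt]
  have e1 : cnt W (fun s => decide (s ≤ W.sum + t + 1)) = 2 ^ W.length := by
    rw [← cnt_true]
    refine cnt_congr _ _ _ fun s hs => ?_
    simp only [decide_eq_true_eq]
    omega
  have e2 : cnt W (fun s => decide (2 * t + 1 + s ≤ W.sum + t + 1)) =
      cnt W (fun s => decide (t ≤ s)) := by
    rw [← cnt_compl W (fun s => decide (t ≤ s))]
    refine cnt_congr _ _ _ fun s hs => ?_
    simp only [decide_eq_decide]
    omega
  have e3 : cnt W (fun s => decide (W.sum + 1 + s ≤ W.sum + t + 1)) =
      cnt W (fun s => decide (s ≤ t)) := by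
    refine cnt_congr _ _ _ fun s hs => ?_
    simp only [decide_eq_decide]
    omega
  have e4 : cnt W (fun s => decide (W.sum + 1 + (2 * t + 1 + s) ≤ W.sum + t + 1)) = 0 := by
    rw [← cnt_false W]
    refine cnt_congr _ _ _ fun s hs => ?_
    simp only [decide_eq_false_iff_not]
    omega
  have e5 : cnt W (fun s => decide (W.sum + t + 1 + s ≤ W.sum + t + 1)) = 1 := by
    rw [← cnt_zero W hW]
    refine cnt_congr _ _ _ fun s hs => ?_
    simp only [decide_eq_decide]
    omega
  have e6 : cnt W (fun s => decide (W.sum + t + 1 + (2 * t + 1 + s) ≤ W.sum + t + 1)) = 0 := by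
    rw [← cnt_false W]
    refine cnt_congr _ _ _ fun s hs => ?_
    simp only [decide_eq_false_iff_not]
    omega
  have e7 : cnt W (fun s => decide (W.sum + t + 1 + (W.sum + 1 + s) ≤ W.sum + t + 1)) = 0 := by
    rw [← cnt_false W]
    refine cnt_congr _ _ _ fun s hs => ?_
    simp only [decide_eq_false_iff_not]
    omega
  have e8 : cnt W (fun s => decide (W.sum + t + 1 + (W.sum + 1 + (2 * t + 1 + s)) ≤
      W.sum + t + 1)) = 0 := by
    rw [← cnt_false W]
    refine cnt_congr _ _ _ fun s hs => ?_
    simp only [decide_eq_false_iff_not]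
    omega
  have e9 := cnt_or_and W (fun s => decide (s ≤ t)) (fun s => decide (t ≤ s))
  have e10 : cnt W (fun s => decide (s ≤ t) || decide (t ≤ s)) = 2 ^ W.length := by
    rw [← cnt_true]
    refine cnt_congr _ _ _ fun s hs => ?_
    rw [Bool.or_eq_true, decide_eq_true_eq, decide_eq_true_eq]
    omega
  have e11 : cnt W (fun s => decide (s ≤ t) && decide (t ≤ s)) =
      cnt W (fun s => decide (s = t)) := by
    refine cnt_congr _ _ _ fun s hs => ?_
    rw [← Bool.decide_and, decide_eq_decide]
    omega
  rw [e1, e2, e3, e4, e5, e6, e7, e8, pow_succ]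
  omega

end Pool.Agent.R531.Rtmp
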