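import Pool.Agent.R531.Rtmp.Weights
import Pool.Agent.H527R3.Toda.CountP
import Pool.Agent.H687R2.IntPoly

/-!
# The problem RTMP and its membership in PP
-/

set_option autoImplicit false

namespace Pool.Agent.R531.Rtmp

open Finset Pool.Agent.NPC Pool.Agent.NPC.Cnt

/-! ### The problem -/

/-- `T`: the sum of the numbers `x i - y i` over the indices `i` with `x i > y i`. -/
def total (l : List (ℤ × ℤ)) : ℤ :=
  ∑ i ∈ univ.filter (fun i : Fin l.length => (l.get i).2 < (l.get i).1),
    ((l.get i).1 - (l.get i).2)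

/-- `N`: the number of sets `S` of indices with `∑ i ∈ S, |x i - y i| ≤ T`. -/
def count (l : List (ℤ × ℤ)) : ℕ :=
  (univ.filter fun S : Finset (Fin l.length) =>
    ∑ i ∈ S, |(l.get i).1 - (l.get i).2| ≤ total l).card

/-- RTMP: is `N ≥ K`? An instance is the list of the pairs `(x i, y i)` together with `K`. -/
def RTMP (I : List (ℤ × ℤ) × ℕ) : Prop := I.2 ≤ count I.1

/-! ### The count by lists -/

/-- the distance -/
def dN (p : ℤ × ℤ) : ℕ := (p.1 - p.2).natAbs

/-- the positive part -/
def tN (p : ℤ × ℤ) : ℕ := if p.2 < p.1 then (p.1 - p.2).natAbs else 0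

theorem total_eq (l : List (ℤ × ℤ)) : total l = (((l.map tN).sum : ℕ) : ℤ) := by
  have h1 : (l.map tN).sum = ∑ i : Fin l.length, tN (l.get i) := by
    rw [← List.sum_ofFn]
    congr 1
    refine List.ext_getElem (by simp) fun j h1 h2 => ?_
    simp
  rw [h1]
  unfold total
  rw [sum_filter]
  push_cast
  refine sum_congr rfl fun i _ => ?_
  unfold tN
  split_ifs with h
  · rw [Int.natCast_natAbs, abs_of_nonneg (by omega)]
  · rfl

theorem count_eq (l : List (ℤ × ℤ)) :
    count l = cnt (l.map dN) (fun s => decide (s ≤ (l.map tN).sum)) := by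
  have h1 := card_fin_eq_cnt (fun i : Fin l.length => dN (l.get i))
    (fun s => decide (s ≤ (l.map tN).sum))
  have h2 : (List.finRange l.length).map (fun i : Fin l.length => dN (l.get i)) = l.map dN := by
    refine List.ext_getElem (by simp) fun j h1 h2 => ?_
    simp
  rw [h2] at h1
  rw [← h1]
  unfold count
  congr 1
  refine filter_congr fun S _ => ?_
  rw [decide_eq_true_eq, total_eq]
  have h3 : ∑ i ∈ S, |(l.get i).1 - (l.get i).2| = ((∑ i ∈ S, dN (l.get i) : ℕ) : ℤ) := by
    push_cast
    refine sum_congr rfl fun i _ => ?_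
    unfold dN
    rw [Int.natCast_natAbs]
  rw [h3]
  exact Int.ofNat_le

/-- the sum of the chosen numbers -/
def pick (l : List ℕ) (w : List Bool) : ℕ := ((l.zip w).map fun p => bif p.2 then p.1 else 0).sum

theorem cnt_eq_bsum : ∀ (l : List ℕ) (P : ℕ → Bool),
    cnt l P = bsum l.length (fun w => (P (pick l w)).toNat)
  | [], P => rfl
  | a :: l, P => by
    rw [List.length_cons, bsum_succ]
    simp only [cnt]
    rw [cnt_eq_bsum l P, cnt_eq_bsum l (fun s => P (a + s))]
    refine congrArg₂ (· + ·) (bsum_congr fun w _ => ?_) (bsum_congr fun w _ => ?_)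
    · simp [pick]
    · simp [pick]

section

variable {α : Type} [TEnc α]

theorem poly_dN : NPC.Poly dN :=
  NPC.Poly.natAbs (NPC.Poly.isub (NPC.Poly.fst NPC.Poly.id) (NPC.Poly.snd NPC.Poly.id))

theorem poly_tN : NPC.Poly tN :=
  NPC.Poly.ite (NPC.Poly.ilt (NPC.Poly.snd NPC.Poly.id) (NPC.Poly.fst NPC.Poly.id)) poly_dN
    (NPC.Poly.const 0)

theorem poly_pick {l : α → List ℕ} {w : α → List Bool} (hl : NPC.Poly l) (hw : NPC.Poly w) :
    NPC.Poly (fun a => pick (l a) (w a)) := by
  unfold pick
  refine NPC.Poly.sum (NPC.Poly.map (F := fun _ (p : ℕ × Bool) => bif p.2 then p.1 else 0)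
    (NPC.Poly.zip hl hw) ?_)
  exact NPC.Poly.cond (NPC.Poly.snd (NPC.Poly.snd NPC.Poly.id))
    (NPC.Poly.fst (NPC.Poly.snd NPC.Poly.id)) (NPC.Poly.const 0)

theorem countP_count : CountP (fun I : List (ℤ × ℤ) × ℕ => count I.1) := by
  refine ⟨fun x => decide (pick (x.1.1.map dN) x.2 ≤ (x.1.1.map tN).sum),
    fun I => I.1.length, ?_, UPoly.length (NPC.Poly.fst NPC.Poly.id), fun I => ?_⟩
  · have h1 : NPC.Poly (fun x : (List (ℤ × ℤ) × ℕ) × List Bool => x.1.1) :=
      NPC.Poly.fst (NPC.Poly.fst NPC.Poly.id)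
    exact NPC.Poly.decide_le
      (poly_pick (NPC.Poly.map (F := fun _ p => dN p) h1
        (poly_dN.comp (NPC.Poly.snd NPC.Poly.id))) (NPC.Poly.snd NPC.Poly.id))
      (NPC.Poly.sum (NPC.Poly.map (F := fun _ p => tN p) h1
        (poly_tN.comp (NPC.Poly.snd NPC.Poly.id))))
  · have h := count_eq I.1
    rw [cnt_eq_bsum, List.length_map] at h
    exact h

/-! ### Membership in PP -/

/-- Comparing a `#P` function with a polynomial-time function is in PP. -/
theorem inPP_of_lt [NPC.TDec α] {F A : α → ℕ} (hF : CountP F) (hA : NPC.Poly A) :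
    Med.InPPc (lang fun a => A a < F a) := by
  obtain ⟨R, r, hR, hFR⟩ := hF.normal
  let test : List Bool × List Bool → Bool := fun s =>
    (unbits α s.1).elim false fun a =>
      bif s.2.head?.getD false then R (a, s.2.tail) else decide (A a ≤ valB s.2.tail)
  have htest : NPC.Poly test := by
    refine Poly.optElim (poly_unbits.comp (NPC.Poly.fst NPC.Poly.id)) (NPC.Poly.const false) ?_
    have htl : NPC.Poly (fun z : (List Bool × List Bool) × α => z.1.2.tail) := by fun_prop
    refine NPC.Poly.cond (by fun_prop) (hR.comp (NPC.Poly.pair (NPC.Poly.snd NPC.Poly.id) htl)) ?_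
    exact NPC.Poly.decide_le (hA.comp (NPC.Poly.snd NPC.Poly.id)) (NPC.Poly.valBits htl)
  refine ⟨fun y => [test (NPC.unpair y)], r + Polynomial.C 1,
    Cnt.polyTime_of_poly (htest.comp NPC.poly_unpair), fun y => ?_⟩
  simp only [NPC.unpair_pairBits, List.cons.injEq, and_true, Polynomial.eval_add, Polynomial.eval_C]
  rw [Med.card_split, mem_lang_iff]
  cases hy : unbits α y with
  | none =>
    have h0 : ∀ b, Nat.card {w : List Bool // w.length = r.eval y.length ∧
        test (y, b :: w) = true} = 0 := by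
      intro b
      rw [Nat.card_eq_zero]
      left
      refine ⟨fun w => ?_⟩
      have := w.2.2
      simp only [test, hy, Option.elim_none] at this
      exact Bool.false_ne_true this
    rw [h0, h0]
    simp
  | some a =>
    have hya := bits_of_unbits hy
    have hsz : sz a = y.length := by rw [← hya, bits_length]
    have hF1 : F a = bsum (r.eval y.length) (fun w => (R (a, w)).toNat) :=
      hFR a _ (by rw [hsz])
    have e1 : Nat.card {w : List Bool // w.length = r.eval y.length ∧
        test (y, true :: w) = true} = F a := by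
      rw [hF1, bsum_eq_card]
      refine Nat.card_congr (Equiv.subtypeEquivRight fun w => and_congr_right fun _ => ?_)
      simp only [test, hy, Option.elim_some, List.head?_cons, Option.getD_some, cond_true,
        List.tail_cons]
    have e2 : Nat.card {w : List Bool // w.length = r.eval y.length ∧
        test (y, false :: w) = true} = 2 ^ r.eval y.length - A a := by
      rw [← Med.card_ge]
      refine Nat.card_congr (Equiv.subtypeEquivRight fun w => and_congr_right fun _ => ?_)
      simp only [test, hy, Option.elim_some, List.head?_cons, Option.getD_some, cond_false,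
        List.tail_cons]
      exact decide_eq_true_iff
    have e3 : F a ≤ 2 ^ r.eval y.length := by
      rw [hF1]
      refine (bsum_le (g := fun _ => 1) fun w _ => Bool.toNat_le _).trans ?_
      rw [bsum_const, mul_one]
    rw [e1, e2, pow_succ]
    constructor
    · rintro ⟨b, hb, hlt⟩
      cases hb
      omega
    · intro h
      exact ⟨a, rfl, by omega⟩

theorem count_pos (l : List (ℤ × ℤ)) : 0 < count l := by
  unfold count
  rw [card_pos]
  refine ⟨∅, ?_⟩
  rw [mem_filter]
  refine ⟨mem_univ _, ?_⟩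
  rw [sum_empty, total_eq]
  positivity

theorem rtmp_inPP : Med.InPPc (lang RTMP) := by
  have h1 := inPP_of_lt (F := fun I : List (ℤ × ℤ) × ℕ => count I.1) (A := fun I => I.2 - 1)
    countP_count (NPC.Poly.sub (NPC.Poly.snd NPC.Poly.id) (NPC.Poly.const 1))
  have h2 : (fun I : List (ℤ × ℤ) × ℕ => I.2 - 1 < count I.1) = RTMP := by
    funext I
    apply propext
    unfold RTMP
    have := count_pos I.1
    constructor <;> intro h <;> omega
  rwa [h2] at h1

/-! ### Hardness -/

/-- the instance with given distances -/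
def instOf (r : List ℕ) : List (ℤ × ℤ) :=
  (((r.head?.getD 0 : ℕ) : ℤ), 0) :: r.tail.map fun w : ℕ => ((0 : ℤ), (w : ℤ))

theorem count_instOf (W : List ℕ) (t : ℕ) (hW : ∀ a ∈ W, 0 < a) :
    count (instOf (rl W t)) = 2 ^ (W.length + 1) + 1 + cnt W (fun s => decide (s = t)) := by
  rw [count_eq]
  have hd : ∀ w : ℕ, dN ((0 : ℤ), (w : ℤ)) = w := fun w => by simp [dN]
  have ht : ∀ w : ℕ, tN ((0 : ℤ), (w : ℤ)) = 0 := fun w => by
    simp only [tN]
    rw [if_neg (by omega)]
  have hd' : ∀ w : ℕ, dN ((w : ℤ), (0 : ℤ)) = w := fun w => by simp [dN]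
  have ht' : ∀ w : ℕ, tN (((w + 1 : ℕ) : ℤ), (0 : ℤ)) = w + 1 := fun w => by
    simp only [tN]
    rw [if_pos (by omega)]
    omega
  have h1 : (instOf (rl W t)).map dN = rl W t := by
    unfold instOf rl
    simp only [List.head?_cons, Option.getD_some, List.tail_cons, List.map_cons, List.map_map]
    rw [hd', hd, hd]
    congr 3
    have h2 : dN ∘ (fun w : ℕ => ((0 : ℤ), (w : ℤ))) = id := by
      funext w
      exact hd w
    rw [h2, List.map_id]
  have h2 : ((instOf (rl W t)).map tN).sum = W.sum + t + 1 := by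
    unfold instOf rl
    simp only [List.head?_cons, Option.getD_some, List.tail_cons, List.map_cons, List.map_map,
      List.sum_cons]
    have h3 : tN ∘ (fun w : ℕ => ((0 : ℤ), (w : ℤ))) = fun _ => 0 := by
      funext w
      exact ht w
    rw [h3, ht', ht, ht]
    simp
  rw [h1, h2, cnt_rl W t hW]

/-- the instance -/
def inst (φ : CNF ℕ) : List (ℤ × ℤ) := instOf (rl ((items φ).map (wt φ)) (tgt φ))

/-- the number of sets which are always counted -/
def off (φ : CNF ℕ) : ℕ := 2 ^ ((items φ).length + 1) + 1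

theorem count_inst (φ : CNF ℕ) : count (inst φ) = off φ + satCount φ := by
  unfold inst off
  rw [count_instOf, List.length_map, cnt_items]
  intro a ha
  rw [List.mem_map] at ha
  obtain ⟨i, hi, rfl⟩ := ha
  exact wt_pos hi

theorem poly_inst {φ : α → CNF ℕ} (h : NPC.Poly φ) : NPC.Poly (fun a => inst (φ a)) := by
  have h1 : NPC.Poly (fun a => rl ((items (φ a)).map (wt (φ a))) (tgt (φ a))) :=
    poly_rl (poly_weights h) (poly_tgt h)
  have h2 : NPC.Poly (fun r : List ℕ => instOf r) := by
    unfold instOf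
    have h3 : NPC.Poly (fun r : List ℕ => r.head?.getD 0) := by fun_prop
    have h4 : NPC.Poly (fun r : List ℕ => r.tail) := by fun_prop
    refine NPC.Poly.cons (NPC.Poly.pair (NPC.Poly.natCast h3) (NPC.Poly.const 0)) ?_
    refine NPC.Poly.map (l := fun r : List ℕ => r.tail)
      (F := fun (_ : List ℕ) (w : ℕ) => ((0 : ℤ), (w : ℤ))) h4 ?_
    exact NPC.Poly.pair (NPC.Poly.const 0) (NPC.Poly.natCast (NPC.Poly.snd NPC.Poly.id))
  exact h2.comp h1

theorem poly_off {φ : α → CNF ℕ} (h : NPC.Poly φ) : NPC.Poly (fun a => off (φ a)) := by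
  unfold off
  exact NPC.Poly.add (Med.poly_two_pow ((UPoly.length (poly_items h)).add (UPoly.const 1)))
    (NPC.Poly.const 1)

end

/-- **Every language in PP is reducible to RTMP.** -/
theorem rtmp_hard (L : Set (List Bool)) (hL : Med.InPPc L) :
    ∃ f : List Bool → List (ℤ × ℤ) × ℕ, NPC.Poly f ∧ PolyTime (fun x => bits (f x)) ∧
      ∀ x, x ∈ L ↔ RTMP (f x) := by
  obtain ⟨V, p, hV, hL⟩ := hL
  obtain ⟨g, hg, hgc⟩ := parsimonious hV p
  have hg' : NPC.Poly g := PC.comp (g := g) (f := fun x : List Bool => x) hg Cnt.pc_raw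
  let f : List Bool → List (ℤ × ℤ) × ℕ := fun x =>
    (inst (g x), off (g x) + (2 ^ p.eval x.length / 2 + 1))
  have hf : NPC.Poly f := by
    refine NPC.Poly.pair (poly_inst hg') (NPC.Poly.add (poly_off hg') ?_)
    exact NPC.Poly.add (NPC.Poly.div (Med.poly_two_pow
      (Med.uPoly_evalLen NPC.Poly.id p)) (NPC.Poly.const 2)) (NPC.Poly.const 1)
  have hf' : PC (id : List Bool → List Bool) (bits : List (ℤ × ℤ) × ℕ → List Bool) f :=
    PC.comp (ea := fun x : List Bool => x) (eb := (bits : List Bool → List Bool))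
      (ec := bits) (g := f) (f := fun x => x) hf PC.ofBits
  refine ⟨f, hf, PC.toPolyTime hf', fun x => ?_⟩
  rw [hL x, ← hgc x]
  unfold RTMP
  simp only [f]
  rw [count_inst]
  omega

theorem rtmp_inNP : InNPP RTMP ↔ ∀ L : Set (List Bool), Med.InPPc L → InNP L := by
  constructor
  · intro h L hL
    obtain ⟨f, hf, _, hfL⟩ := rtmp_hard L hL
    have h1 : InNPP (fun x : List Bool => RTMP (f x)) := Med.InNPP.comp h hf
    refine Med.inNP_raw ?_
    have h2 : (fun x : List Bool => x ∈ L) = fun x => RTMP (f x) := by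
      funext x
      exact propext (hfL x)
    rw [h2]
    exact h1
  · intro h
    exact h _ rtmp_inPP

theorem rtmp_coNP (h : InNPP RTMP) (L : Set (List Bool)) (hL : InNP L) : InNP Lᶜ :=
  Med.compl_of_graph (fun _ hf => Med.graph_of_pp (rtmp_inNP.1 h) hf) hL

end Pool.Agent.R531.Rtmp
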