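import Pool.Agent.R531.Rtmp.Count
import Pool.Agent.H527R2.NM

/-!
# Satisfying assignments and solutions of a system of linear equations with digits as coefficients
-/

set_option autoImplicit false

namespace Pool.Agent.R531.Rtmp

open Finset Pool.Agent.NPC Pool.Agent.NPC.Cnt

/-! ### Digits -/

theorem digits_unique (B : ℕ) (hB : 0 < B) : ∀ (N : ℕ) (x y : ℕ → ℕ), (∀ p < N, x p < B) →
    (∀ p < N, y p < B) → ∑ p ∈ range N, x p * B ^ p = ∑ p ∈ range N, y p * B ^ p →
    ∀ p < N, x p = y p
  | 0, _, _, _, _, _, p, hp => absurd hp (by omega)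
  | N + 1, x, y, hx, hy, h, p, hp => by
    have e : ∀ z : ℕ → ℕ, ∑ p ∈ range (N + 1), z p * B ^ p =
        z 0 + B * ∑ p ∈ range N, z (p + 1) * B ^ p := by
      intro z
      rw [sum_range_succ', mul_sum, pow_zero, mul_one, add_comm]
      congr 1
      refine sum_congr rfl fun p _ => ?_
      rw [pow_succ]
      ring
    rw [e x, e y] at h
    have h0 : x 0 = y 0 := by
      have h1 := congrArg (· % B) h
      simp only [Nat.add_mul_mod_self_left] at h1
      rwa [Nat.mod_eq_of_lt (hx 0 (by omega)), Nat.mod_eq_of_lt (hy 0 (by omega))] at h1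
    have h2 : ∑ p ∈ range N, x (p + 1) * B ^ p = ∑ p ∈ range N, y (p + 1) * B ^ p := by
      rw [h0] at h
      exact Nat.eq_of_mul_eq_mul_left hB (Nat.add_left_cancel h)
    cases p with
    | zero => exact h0
    | succ p =>
      exact digits_unique B hB N (fun p => x (p + 1)) (fun p => y (p + 1))
        (fun p hp => hx _ (by omega)) (fun p hp => hy _ (by omega)) h2 p (by omega)

/-! ### The system -/

/-- the variables of the formula -/
def vl (φ : CNF ℕ) : List ℕ := (φ.flatten.map Prod.snd).dedup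

/-- the `j`-th clause -/
def cl (φ : CNF ℕ) (j : ℕ) : List (Bool × ℕ) := φ.getD j []

/-- the number of items in the group `a` -/
def gsz (φ : CNF ℕ) (a : ℕ) : ℕ :=
  if a < (vl φ).length then 2 else (cl φ (a - (vl φ).length)).length

/-- the items -/
def items (φ : CNF ℕ) : List (ℕ × ℕ) :=
  (List.range ((vl φ).length + φ.length)).flatMap fun a =>
    (List.range (gsz φ a)).map fun b => (a, b)

/-- the digit of an item at a position -/
def dg (φ : CNF ℕ) (i : ℕ × ℕ) (p : ℕ) : ℕ :=
  if p < (vl φ).length + φ.length then (if p = i.1 then 1 else 0)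
  else if i.1 < (vl φ).length then
    (cl φ (p - ((vl φ).length + φ.length))).countP
      (fun l => decide (l = (decide (i.2 = 1), (vl φ).getD i.1 0)))
  else if i.1 + φ.length = p then i.2 else 0

/-- the target digits -/
def tg (φ : CNF ℕ) (p : ℕ) : ℕ :=
  if p < (vl φ).length + φ.length then 1
  else (cl φ (p - ((vl φ).length + φ.length))).length

/-- the number of positions -/
def np (φ : CNF ℕ) : ℕ := (vl φ).length + φ.length + φ.length

theorem vl_nodup (φ : CNF ℕ) : (vl φ).Nodup := List.nodup_dedup _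

theorem mem_vl {φ : CNF ℕ} {v : ℕ} : v ∈ vl φ ↔ v ∈ vars φ := by
  unfold vl vars
  rw [List.mem_dedup, List.mem_toFinset]

theorem mem_items {φ : CNF ℕ} {i : ℕ × ℕ} :
    i ∈ items φ ↔ i.1 < (vl φ).length + φ.length ∧ i.2 < gsz φ i.1 := by
  obtain ⟨a, b⟩ := i
  simp only [items, List.mem_flatMap, List.mem_range, List.mem_map, Prod.mk.injEq]
  constructor
  · rintro ⟨a', ha', b', hb', rfl, rfl⟩
    exact ⟨ha', hb'⟩
  · rintro ⟨ha, hb⟩
    exact ⟨a, ha, b, hb, rfl, rfl⟩

theorem items_nodup (φ : CNF ℕ) : (items φ).Nodup := by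
  unfold items
  rw [List.nodup_flatMap]
  constructor
  · intro a _
    exact (List.nodup_range).map fun b b' h => by simpa using h
  · refine List.Pairwise.imp_of_mem (R := fun a b => a < b) ?_ List.pairwise_lt_range
    intro a a' _ _ hlt
    rw [Function.onFun, List.disjoint_left]
    rintro ⟨x, y⟩ h1 h2
    simp only [List.mem_map, List.mem_range, Prod.mk.injEq] at h1 h2
    obtain ⟨_, _, rfl, _⟩ := h1
    obtain ⟨_, _, rfl, _⟩ := h2
    exact absurd hlt (lt_irrefl _)

theorem cl_mem {φ : CNF ℕ} {j : ℕ} (hj : j < φ.length) : cl φ j ∈ φ := by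
  unfold cl
  rw [List.getD_eq_getElem _ _ hj]
  exact List.getElem_mem _

theorem cl_vars {φ : CNF ℕ} {j : ℕ} (hj : j < φ.length) {l : Bool × ℕ} (hl : l ∈ cl φ j) :
    l.2 ∈ vl φ := by
  rw [mem_vl, mem_vars]
  exact ⟨_, cl_mem hj, l.1, hl⟩

/-- the number of true literals in a clause -/
def nt (φ : CNF ℕ) (S : Finset ℕ) (j : ℕ) : ℕ :=
  (cl φ j).countP fun l => decide (l.1 = decide (l.2 ∈ S))

theorem nt_le (φ : CNF ℕ) (S : Finset ℕ) (j : ℕ) : nt φ S j ≤ (cl φ j).length :=
  List.countP_le_length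

/-- the item chosen in the group `a` -/
def ch (φ : CNF ℕ) (S : Finset ℕ) (a : ℕ) : ℕ :=
  if a < (vl φ).length then (if (vl φ).getD a 0 ∈ S then 1 else 0)
  else (cl φ (a - (vl φ).length)).length - nt φ S (a - (vl φ).length)

/-- the graph of a choice function -/
def gr (φ : CNF ℕ) (c : ℕ → ℕ) : Finset (ℕ × ℕ) :=
  (range ((vl φ).length + φ.length)).image fun a => (a, c a)

theorem mem_gr {φ : CNF ℕ} {c : ℕ → ℕ} {i : ℕ × ℕ} :
    i ∈ gr φ c ↔ i.1 < (vl φ).length + φ.length ∧ i.2 = c i.1 := by
  obtain ⟨a, b⟩ := i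
  simp only [gr, mem_image, mem_range, Prod.mk.injEq]
  constructor
  · rintro ⟨a', h, rfl, rfl⟩
    exact ⟨h, rfl⟩
  · rintro ⟨h, rfl⟩
    exact ⟨a, h, rfl, rfl⟩

theorem sum_gr (φ : CNF ℕ) (c : ℕ → ℕ) (f : ℕ × ℕ → ℕ) :
    ∑ i ∈ gr φ c, f i = ∑ a ∈ range ((vl φ).length + φ.length), f (a, c a) := by
  unfold gr
  rw [sum_image]
  intro a _ b _ h
  exact (Prod.mk.injEq _ _ _ _ ▸ h).1

/-- a literal is met by exactly one of the chosen values -/
theorem sum_ind {vs : List ℕ} (hvs : vs.Nodup) (S : Finset ℕ) (l : Bool × ℕ) (hl : l.2 ∈ vs)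
    (b : ℕ → Bool) (hb : ∀ a < vs.length, b a = decide (vs.getD a 0 ∈ S)) :
    ∑ a ∈ range vs.length, (if l = (b a, vs.getD a 0) then 1 else 0) =
      if l.1 = decide (l.2 ∈ S) then 1 else 0 := by
  obtain ⟨i, hi, hil⟩ := List.mem_iff_getElem.1 hl
  rw [sum_eq_single i]
  · have h1 : vs.getD i 0 = l.2 := by rw [List.getD_eq_getElem _ _ hi, hil]
    rw [hb i hi, h1]
    by_cases h : l.1 = decide (l.2 ∈ S)
    · rw [if_pos h, if_pos (show l = (decide (l.2 ∈ S), l.2) from Prod.ext h rfl)]
    · rw [if_neg h, if_neg]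
      intro h2
      exact h (congrArg Prod.fst h2)
  · intro a ha hne
    rw [mem_range] at ha
    rw [if_neg]
    intro h2
    have h3 : l.2 = vs.getD a 0 := congrArg Prod.snd h2
    rw [List.getD_eq_getElem _ _ ha, ← hil] at h3
    exact hne ((hvs.getElem_inj_iff.1 h3).symm)
  · intro h
    exact absurd (mem_range.2 hi) h

theorem sum_count {vs : List ℕ} (hvs : vs.Nodup) (S : Finset ℕ) (b : ℕ → Bool)
    (hb : ∀ a < vs.length, b a = decide (vs.getD a 0 ∈ S)) :
    ∀ (C : List (Bool × ℕ)), (∀ l ∈ C, l.2 ∈ vs) →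
      ∑ a ∈ range vs.length, C.countP (fun l => decide (l = (b a, vs.getD a 0))) =
        C.countP fun l => decide (l.1 = decide (l.2 ∈ S))
  | [], _ => by simp
  | l :: C, h => by
    have h1 := sum_ind hvs S l (h l (by simp)) b hb
    have h2 := sum_count hvs S b hb C fun l' hl' => h l' (by simp [hl'])
    simp only [List.countP_cons, decide_eq_true_eq]
    rw [sum_add_distrib, h1, h2]

/-- the digit sums of a graph at the positions of the groups -/
theorem digit_low {φ : CNF ℕ} {c : ℕ → ℕ} {p : ℕ} (hp : p < (vl φ).length + φ.length) :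
    ∑ i ∈ gr φ c, dg φ i p = 1 := by
  rw [sum_gr, sum_eq_single p]
  · unfold dg
    rw [if_pos hp, if_pos rfl]
  · intro a _ hne
    unfold dg
    rw [if_pos hp, if_neg fun h => hne h.symm]
  · intro h
    exact absurd (mem_range.2 hp) h

/-- the digit sums of a graph at the positions of the clauses -/
theorem digit_high {φ : CNF ℕ} {c : ℕ → ℕ} {S : Finset ℕ}
    (hc : ∀ a < (vl φ).length, decide (c a = 1) = decide ((vl φ).getD a 0 ∈ S))
    {j : ℕ} (hj : j < φ.length) :
    ∑ i ∈ gr φ c, dg φ i ((vl φ).length + φ.length + j) = nt φ S j + c ((vl φ).length + j) := by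
  rw [sum_gr, sum_range_add]
  congr 1
  · unfold nt
    rw [← sum_count (vl_nodup φ) S (fun a => decide (c a = 1)) hc (cl φ j)
      fun l hl => cl_vars hj hl]
    refine sum_congr rfl fun a ha => ?_
    rw [mem_range] at ha
    unfold dg
    rw [if_neg (by omega), if_pos ha, Nat.add_sub_cancel_left]
  · rw [sum_eq_single j]
    · unfold dg
      rw [if_neg (by omega), if_neg (by simp), if_pos (by simp only; omega)]
    · intro a _ hne
      unfold dg
      rw [if_neg (by omega), if_neg (by simp), if_neg (by simp only; omega)]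
    · intro h
      exact absurd (mem_range.2 hj) h

theorem satBy_iff {φ : CNF ℕ} {S : Finset ℕ} : SatBy S φ ↔ ∀ j < φ.length, 0 < nt φ S j := by
  unfold SatBy nt
  constructor
  · intro h j hj
    obtain ⟨l, hl, h1⟩ := h _ (cl_mem hj)
    exact List.countP_pos_iff.2 ⟨l, hl, by simpa using h1⟩
  · intro h c hc
    obtain ⟨j, hj, rfl⟩ := List.mem_iff_getElem.1 hc
    obtain ⟨l, hl, h1⟩ := List.countP_pos_iff.1 (h j hj)
    refine ⟨l, ?_, by simpa using h1⟩
    unfold cl at hl
    rwa [List.getD_eq_getElem _ _ hj] at hl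

theorem ch_bit (φ : CNF ℕ) (S : Finset ℕ) : ∀ a < (vl φ).length,
    decide (ch φ S a = 1) = decide ((vl φ).getD a 0 ∈ S) := by
  intro a ha
  unfold ch
  rw [if_pos ha]
  by_cases h : (vl φ).getD a 0 ∈ S
  · simp [h]
  · simp [h]

/-- the solutions of the system -/
def Sol (φ : CNF ℕ) (U : Finset (ℕ × ℕ)) : Prop := ∀ p < np φ, ∑ i ∈ U, dg φ i p = tg φ p

theorem sol_gr {φ : CNF ℕ} {S : Finset ℕ} (hS : SatBy S φ) :
    gr φ (ch φ S) ⊆ (items φ).toFinset ∧ Sol φ (gr φ (ch φ S)) := by
  rw [satBy_iff] at hS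
  constructor
  · intro i hi
    rw [mem_gr] at hi
    rw [List.mem_toFinset, mem_items]
    refine ⟨hi.1, ?_⟩
    rw [hi.2]
    unfold ch gsz
    by_cases h : i.1 < (vl φ).length
    · rw [if_pos h, if_pos h]
      split_ifs <;> omega
    · rw [if_neg h, if_neg h]
      have h1 := hS (i.1 - (vl φ).length) (by omega)
      have h2 := nt_le φ S (i.1 - (vl φ).length)
      omega
  · intro p hp
    unfold tg
    by_cases h : p < (vl φ).length + φ.length
    · rw [if_pos h, digit_low h]
    · rw [if_neg h]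
      unfold np at hp
      obtain ⟨j, rfl⟩ : ∃ j, p = (vl φ).length + φ.length + j :=
        ⟨p - ((vl φ).length + φ.length), by omega⟩
      rw [digit_high (ch_bit φ S) (by omega), Nat.add_sub_cancel_left]
      unfold ch
      rw [if_neg (by omega), Nat.add_sub_cancel_left]
      have := nt_le φ S j
      omega

theorem sol_exists {φ : CNF ℕ} {U : Finset (ℕ × ℕ)} (hU : U ⊆ (items φ).toFinset)
    (hs : Sol φ U) : ∃ S ⊆ vars φ, SatBy S φ ∧ gr φ (ch φ S) = U := by
  classical
  have hone : ∀ a < (vl φ).length + φ.length, ∃ b, (U.filter fun i => i.1 = a) = {(a, b)} := by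
    intro a ha
    have h1 := hs a (by unfold np; omega)
    have h2 : ∑ i ∈ U, dg φ i a = (U.filter fun i => i.1 = a).card := by
      rw [card_filter]
      refine sum_congr rfl fun i _ => ?_
      unfold dg
      rw [if_pos ha]
      by_cases h : i.1 = a
      · rw [if_pos h, if_pos h.symm]
      · rw [if_neg h, if_neg fun h' => h h'.symm]
    have h3 : tg φ a = 1 := by
      unfold tg
      rw [if_pos ha]
    rw [h2, h3, card_eq_one] at h1
    obtain ⟨⟨x, b⟩, hx⟩ := h1
    have h4 : (x, b) ∈ U.filter fun i => i.1 = a := by rw [hx]; simp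
    rw [mem_filter] at h4
    have h5 : x = a := h4.2
    subst h5
    exact ⟨b, hx⟩
  choose! c hc using hone
  have hUc : U = gr φ c := by
    ext i
    rw [mem_gr]
    constructor
    · intro hi
      have h1 := hU hi
      rw [List.mem_toFinset, mem_items] at h1
      refine ⟨h1.1, ?_⟩
      have h2 : i ∈ U.filter fun i' => i'.1 = i.1 := mem_filter.2 ⟨hi, rfl⟩
      rw [hc i.1 h1.1, mem_singleton] at h2
      exact congrArg Prod.snd h2
    · rintro ⟨h1, h2⟩
      have h3 : (i.1, c i.1) ∈ U.filter fun i' => i'.1 = i.1 := by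
        rw [hc i.1 h1]
        simp
      rw [mem_filter, ← h2] at h3
      exact h3.1
  have hlt : ∀ a < (vl φ).length + φ.length, c a < gsz φ a := by
    intro a ha
    have h1 : (a, c a) ∈ U := by
      rw [hUc, mem_gr]
      exact ⟨ha, rfl⟩
    have h2 := hU h1
    rw [List.mem_toFinset, mem_items] at h2
    exact h2.2
  set S : Finset ℕ := (vars φ).filter fun v => c ((vl φ).idxOf v) = 1 with hS
  have hbit : ∀ a < (vl φ).length, decide (c a = 1) = decide ((vl φ).getD a 0 ∈ S) := by
    intro a ha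
    rw [decide_eq_decide, hS, mem_filter, List.getD_eq_getElem _ _ ha, (vl_nodup φ).idxOf_getElem,
      ← mem_vl]
    simp
  have hcl : ∀ j < φ.length, nt φ S j + c ((vl φ).length + j) = (cl φ j).length := by
    intro j hj
    have h1 := hs ((vl φ).length + φ.length + j) (by unfold np; omega)
    rw [hUc, digit_high hbit hj] at h1
    unfold tg at h1
    rwa [if_neg (by omega), Nat.add_sub_cancel_left] at h1
  refine ⟨S, filter_subset _ _, ?_, ?_⟩
  · rw [satBy_iff]
    intro j hj
    have h1 := hcl j hj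
    have h2 := hlt ((vl φ).length + j) (by omega)
    unfold gsz at h2
    rw [if_neg (by omega), Nat.add_sub_cancel_left] at h2
    omega
  · rw [hUc]
    ext i
    rw [mem_gr, mem_gr]
    refine and_congr_right fun hi => ?_
    have : ch φ S i.1 = c i.1 := by
      unfold ch
      by_cases h : i.1 < (vl φ).length
      · rw [if_pos h]
        have h1 := hbit i.1 h
        have h2 := hlt i.1 hi
        unfold gsz at h2
        rw [if_pos h] at h2
        rw [decide_eq_decide] at h1
        split_ifs with h3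
        · exact (h1.2 h3).symm
        · have h4 : c i.1 ≠ 1 := fun h5 => h3 (h1.1 h5)
          omega
      · rw [if_neg h]
        obtain ⟨j, hj⟩ : ∃ j, i.1 = (vl φ).length + j := ⟨i.1 - (vl φ).length, by omega⟩
        have h1 := hcl j (by omega)
        rw [hj, Nat.add_sub_cancel_left]
        omega
    rw [this]

theorem gr_inj {φ : CNF ℕ} {S S' : Finset ℕ} (hS : S ⊆ vars φ) (hS' : S' ⊆ vars φ)
    (h : gr φ (ch φ S) = gr φ (ch φ S')) : S = S' := by
  have key : ∀ S T : Finset ℕ, S ⊆ vars φ → gr φ (ch φ S) = gr φ (ch φ T) → S ⊆ T := by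
    intro S T hS h v hv
    have h1 : v ∈ vl φ := mem_vl.2 (hS hv)
    obtain ⟨a, ha, rfl⟩ := List.mem_iff_getElem.1 h1
    have h2 : (a, 1) ∈ gr φ (ch φ S) := by
      rw [mem_gr]
      refine ⟨by simp only; omega, ?_⟩
      simp only [ch]
      rw [if_pos ha, List.getD_eq_getElem _ _ ha, if_pos hv]
    rw [h, mem_gr] at h2
    have h3 := h2.2
    simp only [ch] at h3
    rw [if_pos ha, List.getD_eq_getElem _ _ ha] at h3
    by_contra h4
    rw [if_neg h4] at h3
    omega
  exact Subset.antisymm (key S S' hS h) (key S' S hS' h.symm)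

open Classical in
/-- **The number of solutions is the number of satisfying assignments.** -/
theorem card_sol (φ : CNF ℕ) :
    ((items φ).toFinset.powerset.filter fun U => Sol φ U).card = satCount φ := by
  symm
  unfold satCount
  refine card_bij (fun S _ => gr φ (ch φ S)) ?_ ?_ ?_
  · intro S hS
    rw [mem_filter, mem_powerset] at hS
    rw [mem_filter, mem_powerset]
    exact sol_gr hS.2
  · intro S hS S' hS' h
    rw [mem_filter, mem_powerset] at hS hS'
    exact gr_inj hS.1 hS'.1 h
  · intro U hU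
    rw [mem_filter, mem_powerset] at hU
    obtain ⟨S, h1, h2, h3⟩ := sol_exists hU.1 hU.2
    exact ⟨S, by rw [mem_filter, mem_powerset]; exact ⟨h1, h2⟩, h3⟩

end Pool.Agent.R531.Rtmp
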