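import Pool.Agent.R531.Rtmp.Sat
import Pool.Agent.H578R2.Med.PP

/-!
# From the system to subset sums
-/

set_option autoImplicit false

namespace Pool.Agent.R531.Rtmp

open Finset Pool.Agent.NPC Pool.Agent.NPC.Cnt

/-- the number of bits per digit -/
def sw (φ : CNF ℕ) : ℕ := 2 * φ.flatten.length + 3

/-- a number as a block of `s` bits -/
def blk (s d : ℕ) : List Bool := (d.bits ++ List.replicate s false).take s

theorem blk_length (s d : ℕ) : (blk s d).length = s := by
  unfold blk
  rw [List.length_take, List.length_append, List.length_replicate]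
  omega

theorem valB_replicate (n : ℕ) : valB (List.replicate n false) = 0 := by
  induction n with
  | zero => rfl
  | succ n ih =>
    rw [List.replicate_succ, show (false :: List.replicate n false) =
      [false] ++ List.replicate n false from rfl, valB_append, ih]
    rfl

theorem valB_blk {s d : ℕ} (h : d < 2 ^ s) : valB (blk s d) = d := by
  unfold blk
  have h1 : d.bits.length ≤ s := by
    rw [Nat.size_eq_bits_len]
    exact Nat.size_le.2 h
  rw [List.take_append, List.take_of_length_le h1, List.take_replicate, valB_append, valB_bits,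
    valB_replicate]
  omega

theorem valB_blocks {s : ℕ} (d : ℕ → ℕ) : ∀ N : ℕ, (∀ p < N, d p < 2 ^ s) →
    valB ((List.range N).flatMap fun p => blk s (d p)) = ∑ p ∈ range N, d p * (2 ^ s) ^ p ∧
      ((List.range N).flatMap fun p => blk s (d p)).length = s * N
  | 0, _ => by simp [valB]
  | N + 1, h => by
    obtain ⟨h1, h2⟩ := valB_blocks d N fun p hp => h p (by omega)
    rw [List.range_succ, List.flatMap_append]
    constructor
    · rw [valB_append, h1, h2, List.flatMap_singleton, valB_blk (h N (by omega)),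
        sum_range_succ, pow_mul]
      ring
    · rw [List.length_append, h2, List.flatMap_singleton, blk_length]
      ring

/-- the weight of an item -/
def wt (φ : CNF ℕ) (i : ℕ × ℕ) : ℕ :=
  valB ((List.range (np φ)).flatMap fun p => blk (sw φ) (dg φ i p))

/-- the target -/
def tgt (φ : CNF ℕ) : ℕ := valB ((List.range (np φ)).flatMap fun p => blk (sw φ) (tg φ p))

theorem cl_length_le (φ : CNF ℕ) (j : ℕ) : (cl φ j).length ≤ φ.flatten.length := by
  by_cases hj : j < φ.length
  · have h1 := (List.sublist_flatten_of_mem (cl_mem hj)).length_le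
    exact h1
  · unfold cl
    rw [List.getD_eq_default _ _ (by omega)]
    simp

theorem vl_length_le (φ : CNF ℕ) : (vl φ).length ≤ φ.flatten.length := by
  unfold vl
  refine (List.dedup_sublist _).length_le.trans ?_
  rw [List.length_map]

theorem dg_le {φ : CNF ℕ} {i : ℕ × ℕ} (hi : i ∈ items φ) (p : ℕ) :
    dg φ i p ≤ φ.flatten.length + 1 := by
  rw [mem_items] at hi
  unfold dg
  split_ifs with h1 h2 h3 h4
  · omega
  · omega
  · exact (List.countP_le_length).trans ((cl_length_le _ _).trans (by omega))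
  · have h5 := hi.2
    unfold gsz at h5
    rw [if_neg h3] at h5
    have := cl_length_le φ (i.1 - (vl φ).length)
    omega
  · omega

theorem sum_clauses (φ : CNF ℕ) :
    ((List.range φ.length).map fun j => (cl φ j).length).sum = φ.flatten.length := by
  rw [List.length_flatten]
  congr 1
  refine List.ext_getElem (by simp) fun j h1 h2 => ?_
  simp only [List.getElem_map, List.getElem_range]
  rw [List.length_map] at h2
  unfold cl
  rw [List.getD_eq_getElem _ _ h2]

theorem items_length (φ : CNF ℕ) : (items φ).length ≤ 3 * φ.flatten.length := by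
  unfold items
  rw [List.length_flatMap]
  simp only [List.length_map, List.length_range]
  rw [List.range_add, List.map_append, List.sum_append]
  have h1 : ((List.range (vl φ).length).map (gsz φ)).sum = 2 * (vl φ).length := by
    rw [List.map_congr_left (g := fun _ => 2)]
    · simp [mul_comm]
    · intro a ha
      rw [List.mem_range] at ha
      unfold gsz
      rw [if_pos ha]
  have h2 : (((List.range φ.length).map ((vl φ).length + ·)).map (gsz φ)).sum =
      φ.flatten.length := by
    rw [List.map_map, ← sum_clauses]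
    congr 1
    refine List.map_congr_left fun j _ => ?_
    simp only [Function.comp_apply, gsz]
    rw [if_neg (by omega), Nat.add_sub_cancel_left]
  have h3 := vl_length_le φ
  have h4 : ((List.range (vl φ).length).map fun a => gsz φ a).sum = 2 * (vl φ).length := h1
  have h5 : (((List.range φ.length).map ((vl φ).length + ·)).map fun a => gsz φ a).sum =
      φ.flatten.length := h2
  rw [h4, h5]
  omega

theorem bound (x : ℕ) : 3 * x * (x + 1) < 2 ^ (2 * x + 3) := by
  have h1 : x + 1 ≤ 2 ^ x := Nat.lt_two_pow_self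
  have h2 : x * (x + 1) ≤ 2 ^ x * 2 ^ x := Nat.mul_le_mul (by omega) h1
  have h3 : 2 ^ (2 * x + 3) = 8 * (2 ^ x * 2 ^ x) := by
    rw [pow_add, two_mul, pow_add]
    ring
  have h4 : 0 < 2 ^ x * 2 ^ x := by positivity
  rw [h3, mul_assoc]
  omega

theorem sum_dg_lt (φ : CNF ℕ) {U : Finset (ℕ × ℕ)} (hU : U ⊆ (items φ).toFinset) (p : ℕ) :
    ∑ i ∈ U, dg φ i p < 2 ^ sw φ := by
  refine lt_of_le_of_lt ?_ (bound φ.flatten.length)
  refine (sum_le_card_nsmul U _ (φ.flatten.length + 1) fun i hi => ?_).trans ?_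
  · exact dg_le (List.mem_toFinset.1 (hU hi)) p
  · rw [smul_eq_mul]
    refine Nat.mul_le_mul_right _ ((card_le_card hU).trans ?_)
    exact (List.toFinset_card_le _).trans (items_length φ)

theorem dg_lt {φ : CNF ℕ} {i : ℕ × ℕ} (hi : i ∈ items φ) (p : ℕ) : dg φ i p < 2 ^ sw φ := by
  have h1 := sum_dg_lt φ (U := {i}) (by simpa using hi) p
  rwa [sum_singleton] at h1

theorem tg_lt (φ : CNF ℕ) (p : ℕ) : tg φ p < 2 ^ sw φ := by
  have h1 : φ.flatten.length + 1 < 2 ^ sw φ := by
    have h2 : 2 * φ.flatten.length + 3 < 2 ^ sw φ := Nat.lt_two_pow_self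
    omega
  unfold tg
  split_ifs
  · omega
  · have := cl_length_le φ (p - ((vl φ).length + φ.length))
    omega

theorem sum_wt {φ : CNF ℕ} {U : Finset (ℕ × ℕ)} (hU : U ⊆ (items φ).toFinset) :
    ∑ i ∈ U, wt φ i = tgt φ ↔ Sol φ U := by
  have h1 : ∑ i ∈ U, wt φ i = ∑ p ∈ range (np φ), (∑ i ∈ U, dg φ i p) * (2 ^ sw φ) ^ p := by
    simp only [sum_mul]
    rw [sum_comm]
    refine sum_congr rfl fun i hi => ?_
    exact (valB_blocks _ _ fun p _ => dg_lt (List.mem_toFinset.1 (hU hi)) p).1
  have h2 : tgt φ = ∑ p ∈ range (np φ), tg φ p * (2 ^ sw φ) ^ p :=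
    (valB_blocks _ _ fun p _ => tg_lt φ p).1
  rw [h1, h2]
  constructor
  · intro h
    exact digits_unique _ (by positivity) _ _ _ (fun p _ => sum_dg_lt φ hU p)
      (fun p _ => tg_lt φ p) h
  · intro h
    refine sum_congr rfl fun p hp => ?_
    rw [h p (mem_range.1 hp)]

theorem wt_pos {φ : CNF ℕ} {i : ℕ × ℕ} (hi : i ∈ items φ) : 0 < wt φ i := by
  have h1 : wt φ i = ∑ p ∈ range (np φ), dg φ i p * (2 ^ sw φ) ^ p :=
    (valB_blocks _ _ fun p _ => dg_lt hi p).1
  rw [h1]
  have h2 := (mem_items.1 hi).1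
  refine lt_of_lt_of_le ?_ (single_le_sum (f := fun p => dg φ i p * (2 ^ sw φ) ^ p)
    (fun _ _ => Nat.zero_le _) (mem_range.2 (show i.1 < np φ by unfold np; omega)))
  have h3 : dg φ i i.1 = 1 := by
    unfold dg
    rw [if_pos h2, if_pos rfl]
  simp only [h3, one_mul]
  positivity

/-- **Subset sums with a given value count satisfying assignments.** -/
theorem cnt_items (φ : CNF ℕ) :
    cnt ((items φ).map (wt φ)) (fun s => decide (s = tgt φ)) = satCount φ := by
  classical
  rw [← card_sol, ← card_eq_cnt (wt φ) (items φ) (items_nodup φ)]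
  congr 1
  refine filter_congr fun U hU => ?_
  rw [mem_powerset] at hU
  rw [decide_eq_true_eq]
  exact sum_wt hU

/-! ### The functions are computable in polynomial time -/

section

variable {α β : Type} [TEnc α] [TEnc β]

/-- Removing repetitions. -/
theorem poly_dedup [DecidableEq β] {l : α → List β} (hl : NPC.Poly l) :
    NPC.Poly (fun a => (l a).dedup) := by
  obtain ⟨r, hr⟩ := hl.sz_le
  have key : ∀ l : List β, l.foldr (fun b s => if b ∈ s then s else b :: s) [] = l.dedup := by
    intro l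
    induction l with
    | nil => rfl
    | cons b l ih =>
      rw [List.foldr_cons, ih]
      by_cases h : b ∈ l
      · rw [List.dedup_cons_of_mem h, if_pos (List.mem_dedup.2 h)]
      · rw [List.dedup_cons_of_notMem h, if_neg (fun h' => h (List.mem_dedup.1 h'))]
  have hsz : ∀ l : List β, sz (l.dedup) ≤ sz l := by
    intro l
    induction l with
    | nil => simp
    | cons b l ih =>
      by_cases h : b ∈ l
      · rw [List.dedup_cons_of_mem h, sz_list_cons]
        omega
      · rw [List.dedup_cons_of_notMem h, sz_list_cons, sz_list_cons]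
        omega
  refine (NPC.Poly.foldr (s := fun _ => [])
    (F := fun _ b (s : List β) => if b ∈ s then s else b :: s)
    hl (NPC.Poly.const _) ?_ r ?_).congr fun a => key _
  · exact NPC.Poly.ite (p := fun p : α × β × List β => p.2.1 ∈ p.2.2)
      (NPC.Poly.decide_mem (NPC.Poly.fst (NPC.Poly.snd NPC.Poly.id))
        (NPC.Poly.snd (NPC.Poly.snd NPC.Poly.id)))
      (NPC.Poly.snd (NPC.Poly.snd NPC.Poly.id)) (NPC.Poly.cons
      (NPC.Poly.fst (NPC.Poly.snd NPC.Poly.id)) (NPC.Poly.snd (NPC.Poly.snd NPC.Poly.id)))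
  · intro a k _
    rw [key]
    exact (hsz _).trans ((Poly.sz_drop_le _ _).trans (hr a))

theorem poly_countP {l : α → List β} {p : α → β → Bool} (hl : NPC.Poly l)
    (hp : NPC.Poly (fun x : α × β => p x.1 x.2)) : NPC.Poly (fun a => (l a).countP (p a)) :=
  (NPC.Poly.length (NPC.Poly.filter hl hp)).congr fun a => by rw [List.countP_eq_length_filter]

@[fun_prop]
theorem poly_vl {φ : α → CNF ℕ} (h : NPC.Poly φ) : NPC.Poly (fun a => vl (φ a)) := by
  unfold vl
  exact poly_dedup (NPC.Poly.map (F := fun _ q => q.2) (NPC.Poly.flatten h)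
    (NPC.Poly.snd (NPC.Poly.snd NPC.Poly.id)))

@[fun_prop]
theorem poly_cl {φ : α → CNF ℕ} {j : α → ℕ} (h : NPC.Poly φ) (hj : NPC.Poly j) :
    NPC.Poly (fun a => cl (φ a) (j a)) := by
  unfold cl
  exact NPC.Poly.getD h hj (NPC.Poly.const _)

theorem upoly_vl {φ : α → CNF ℕ} (h : NPC.Poly φ) : UPoly (fun a => (vl (φ a)).length) :=
  UPoly.length (poly_vl h)

theorem upoly_gsz {φ : α → CNF ℕ} {j : α → ℕ} (h : NPC.Poly φ) (hj : NPC.Poly j) :
    UPoly (fun a => gsz (φ a) (j a)) := by
  refine UPoly.of_le (n := fun a => (φ a).flatten.length + 2) ?_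
    ((UPoly.length (NPC.Poly.flatten h)).add (UPoly.const 2)) fun a => ?_
  · unfold gsz
    exact NPC.Poly.ite (NPC.Poly.decide_lt hj (NPC.Poly.length (poly_vl h))) (NPC.Poly.const 2)
      (NPC.Poly.length (poly_cl h (NPC.Poly.sub hj (NPC.Poly.length (poly_vl h)))))
  · unfold gsz
    have := cl_length_le (φ a) (j a - (vl (φ a)).length)
    split_ifs <;> omega

theorem poly_items {φ : α → CNF ℕ} (h : NPC.Poly φ) : NPC.Poly (fun a => items (φ a)) := by
  unfold items
  refine NPC.Poly.flatMap (F := fun a k => (List.range (gsz (φ a) k)).map fun b => (k, b))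
    (UPoly.range ((upoly_vl h).add (UPoly.length h))) ?_
  refine NPC.Poly.map (F := fun (x : α × ℕ) b => (x.2, b))
    (UPoly.range (upoly_gsz (h.comp (NPC.Poly.fst NPC.Poly.id)) (NPC.Poly.snd NPC.Poly.id))) ?_
  exact NPC.Poly.pair (NPC.Poly.snd (NPC.Poly.fst NPC.Poly.id)) (NPC.Poly.snd NPC.Poly.id)

theorem poly_dg {φ : α → CNF ℕ} {i : α → ℕ × ℕ} {p : α → ℕ} (h : NPC.Poly φ) (hi : NPC.Poly i)
    (hp : NPC.Poly p) : NPC.Poly (fun a => dg (φ a) (i a) (p a)) := by
  unfold dg
  have h1 : NPC.Poly (fun a => (vl (φ a)).length) := NPC.Poly.length (poly_vl h)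
  have h2 : NPC.Poly (fun a => (φ a).length) := NPC.Poly.length h
  have h3 : NPC.Poly (fun a => (vl (φ a)).length + (φ a).length) := NPC.Poly.add h1 h2
  refine NPC.Poly.ite (NPC.Poly.decide_lt hp h3) (NPC.Poly.ite
    (NPC.Poly.decide_eq hp (NPC.Poly.fst hi)) (NPC.Poly.const 1) (NPC.Poly.const 0)) ?_
  refine NPC.Poly.ite (NPC.Poly.decide_lt (NPC.Poly.fst hi) h1) ?_ ?_
  · refine poly_countP (p := fun a (l : Bool × ℕ) =>
      decide (l = (decide ((i a).2 = 1), (vl (φ a)).getD (i a).1 0)))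
      (poly_cl h (NPC.Poly.sub hp h3)) ?_
    refine NPC.Poly.decide_eq (NPC.Poly.snd NPC.Poly.id) (NPC.Poly.pair
      (NPC.Poly.decide_eq (NPC.Poly.snd (hi.comp (NPC.Poly.fst NPC.Poly.id)))
        (NPC.Poly.const 1)) ?_)
    exact NPC.Poly.getD (poly_vl (h.comp (NPC.Poly.fst NPC.Poly.id)))
      (NPC.Poly.fst (hi.comp (NPC.Poly.fst NPC.Poly.id))) (NPC.Poly.const 0)
  · exact NPC.Poly.ite (NPC.Poly.decide_eq (NPC.Poly.add (NPC.Poly.fst hi) h2) hp)
      (NPC.Poly.snd hi) (NPC.Poly.const 0)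

theorem poly_tg {φ : α → CNF ℕ} {p : α → ℕ} (h : NPC.Poly φ)
    (hp : NPC.Poly p) : NPC.Poly (fun a => tg (φ a) (p a)) := by
  unfold tg
  have h1 : NPC.Poly (fun a => (vl (φ a)).length) := NPC.Poly.length (poly_vl h)
  have h2 : NPC.Poly (fun a => (φ a).length) := NPC.Poly.length h
  have h3 : NPC.Poly (fun a => (vl (φ a)).length + (φ a).length) := NPC.Poly.add h1 h2
  exact NPC.Poly.ite (NPC.Poly.decide_lt hp h3) (NPC.Poly.const 1)
    (NPC.Poly.length (poly_cl h (NPC.Poly.sub hp h3)))

theorem upoly_sw {φ : α → CNF ℕ} (h : NPC.Poly φ) : UPoly (fun a => sw (φ a)) :=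
  ((UPoly.const 2).mul (UPoly.length (NPC.Poly.flatten h))).add (UPoly.const 3)

theorem upoly_np {φ : α → CNF ℕ} (h : NPC.Poly φ) : UPoly (fun a => np (φ a)) :=
  ((upoly_vl h).add (UPoly.length h)).add (UPoly.length h)

theorem poly_blk {s d : α → ℕ} (hs : UPoly s) (hd : NPC.Poly d) :
    NPC.Poly (fun a => blk (s a) (d a)) := by
  unfold blk
  exact Med.poly_take (NPC.Poly.append (NPC.Poly.natBits hd)
    (Cnt.UPoly.replicate hs (NPC.Poly.const false))) hs.toPoly

theorem poly_wt {φ : α → CNF ℕ} {i : α → ℕ × ℕ} (h : NPC.Poly φ) (hi : NPC.Poly i) :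
    NPC.Poly (fun a => wt (φ a) (i a)) := by
  unfold wt
  refine NPC.Poly.valBits ?_
  refine NPC.Poly.flatMap (F := fun a p => blk (sw (φ a)) (dg (φ a) (i a) p))
    (UPoly.range (upoly_np h)) ?_
  exact poly_blk (upoly_sw (h.comp (NPC.Poly.fst NPC.Poly.id)))
    (poly_dg (h.comp (NPC.Poly.fst NPC.Poly.id)) (hi.comp (NPC.Poly.fst NPC.Poly.id))
      (NPC.Poly.snd NPC.Poly.id))

theorem poly_tgt {φ : α → CNF ℕ} (h : NPC.Poly φ) : NPC.Poly (fun a => tgt (φ a)) := by
  unfold tgt
  refine NPC.Poly.valBits ?_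
  refine NPC.Poly.flatMap (F := fun a p => blk (sw (φ a)) (tg (φ a) p))
    (UPoly.range (upoly_np h)) ?_
  exact poly_blk (upoly_sw (h.comp (NPC.Poly.fst NPC.Poly.id)))
    (poly_tg (h.comp (NPC.Poly.fst NPC.Poly.id)) (NPC.Poly.snd NPC.Poly.id))

theorem poly_weights {φ : α → CNF ℕ} (h : NPC.Poly φ) :
    NPC.Poly (fun a => (items (φ a)).map (wt (φ a))) :=
  NPC.Poly.map (F := fun a i => wt (φ a) i) (poly_items h)
    (poly_wt (h.comp (NPC.Poly.fst NPC.Poly.id)) (NPC.Poly.snd NPC.Poly.id))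

theorem poly_rl {W : α → List ℕ} {t : α → ℕ} (hW : NPC.Poly W) (ht : NPC.Poly t) :
    NPC.Poly (fun a => rl (W a) (t a)) := by
  unfold rl
  have h1 : NPC.Poly (fun a => (W a).sum) := NPC.Poly.sum hW
  exact NPC.Poly.cons (NPC.Poly.add (NPC.Poly.add h1 ht) (NPC.Poly.const 1))
    (NPC.Poly.cons (NPC.Poly.add h1 (NPC.Poly.const 1))
      (NPC.Poly.cons (NPC.Poly.add (NPC.Poly.mul (NPC.Poly.const 2) ht) (NPC.Poly.const 1)) hW))

end

end Pool.Agent.R531.Rtmp
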